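import Pool.Agent.R34.DP.Stm

/-! DP-EX0 (MP_04ae38_an, project DP of helper34): the exchange bound on `ℝⁿ`. -/

set_option autoImplicit false

open MeasureTheory ProbabilityTheory Set Filter
open scoped NNReal ENNReal Topology

namespace Pool.Agent.H152R2.DP

namespace E0

open R34.DP

theorem pi_ac {α : Type} [MeasurableSpace α] (μ ν : Measure α) [SigmaFinite μ]
    [SigmaFinite ν] (h : μ ≪ ν) (n : ℕ) :
    Measure.pi (fun _ : Fin n => μ) ≪ Measure.pi (fun _ : Fin n => ν) := by
  induction n with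
  | zero =>
    rw [Measure.pi_of_empty, Measure.pi_of_empty]
  | succ n ih =>
    have h1 := measurePreserving_piFinSuccAbove (fun _ : Fin (n + 1) => μ) 0
    have h2 := measurePreserving_piFinSuccAbove (fun _ : Fin (n + 1) => ν) 0
    have h3 := (h1.symm (MeasurableEquiv.piFinSuccAbove (fun _ => α) 0)).map_eq
    have h4 := (h2.symm (MeasurableEquiv.piFinSuccAbove (fun _ => α) 0)).map_eq
    rw [← h3, ← h4]
    exact (h.prod ih).map (MeasurableEquiv.measurable _)

lemma cancel {x y : ℝ} (hx : x ≠ 0) : x * (y / x) = y := by field_simp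

lemma gam_ac (n : ℕ) : gam n ≪ (volume : Measure (Fin n → ℝ)) := by
  unfold gam
  exact pi_ac g1 volume (gaussianReal_absolutelyContinuous 0 one_ne_zero) n

lemma bdd_int {X : Type} [MeasurableSpace X] {μ : Measure X} [IsProbabilityMeasure μ] {F : X → ℝ}
    (hF : Measurable F) {B : ℝ} (hB : ∀ x, |F x| ≤ B) : Integrable F μ :=
  Integrable.of_bound hF.aestronglyMeasurable B (Eventually.of_forall fun x => by
    rw [Real.norm_eq_abs]; exact hB x)

section

variable {n : ℕ} {T : ((Fin n → ℝ) → ℝ) → (Fin n → ℝ) → ℝ} {C : ℝ≥0}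

/-- the operator on the shifted functions -/
def HH (T : ((Fin n → ℝ) → ℝ) → (Fin n → ℝ) → ℝ) (f : (Fin n → ℝ) → ℝ)
    (p : (Fin n → ℝ) × (Fin n → ℝ)) : ℝ := T (fun u => f (u + p.2)) p.1

lemma lip_shift {K : ℝ≥0} {f : (Fin n → ℝ) → ℝ} (hK : LipschitzWith K f) (r : Fin n → ℝ) :
    LipschitzWith K (fun u => f (u + r)) := by
  apply LipschitzWith.of_dist_le_mul
  intro x y
  have h := hK.dist_le_mul (x + r) (y + r)
  rwa [dist_add_right] at h

lemma adm_shift {f : (Fin n → ℝ) → ℝ} (hf : Adm f) (r : Fin n → ℝ) :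
    Adm (fun u => f (u + r)) := by
  obtain ⟨⟨K, hK⟩, B, hB⟩ := hf
  exact ⟨⟨K, lip_shift hK r⟩, B, fun x => hB _⟩

lemma adm_add {f : (Fin n → ℝ) → ℝ} (hf : Adm f) (c : ℝ) : Adm (fun u => f u + c) := by
  obtain ⟨⟨K, hK⟩, B, hB⟩ := hf
  refine ⟨⟨K, ?_⟩, B + |c|, fun x => (abs_add_le _ _).trans (by linarith [hB x])⟩
  apply LipschitzWith.of_dist_le_mul
  intro x y
  have h := hK.dist_le_mul x y
  rwa [dist_add_right]

lemma HH_le (hT : GoodOp (gam n) T C) {K : ℝ≥0} {f : (Fin n → ℝ) → ℝ} (hf : Adm f)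
    (hK : LipschitzWith K f) (w r r' : Fin n → ℝ) :
    HH T f (w, r) ≤ HH T f (w, r') + K * dist r r' := by
  have h1 := hT.lower 0 le_rfl (fun u => f (u + r') + K * dist r r') (fun u => f (u + r))
    (adm_add (adm_shift hf r') _) (adm_shift hf r) (by
      intro x
      rw [add_zero]
      have h := hK.dist_le_mul (x + r) (x + r')
      rw [dist_add_left, Real.dist_eq] at h
      have := le_abs_self (f (x + r) - f (x + r'))
      show f (x + r) ≤ f (x + r') + K * dist r r'
      linarith) w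
  rw [add_zero] at h1
  have h2 := congrFun (hT.const (K * dist r r') (fun u => f (u + r')) (adm_shift hf r')) w
  rw [h2] at h1
  exact h1

lemma HH_lip (hT : GoodOp (gam n) T C) {K : ℝ≥0} {f : (Fin n → ℝ) → ℝ} (hf : Adm f)
    (hK : LipschitzWith K f) : LipschitzWith (C * K + K) (HH T f) := by
  apply LipschitzWith.of_dist_le_mul
  rintro ⟨w, r⟩ ⟨w', r'⟩
  have h1 := (hT.lip K (fun u => f (u + r)) (adm_shift hf r) (lip_shift hK r)).dist_le_mul w w'
  have h2 := HH_le hT hf hK w' r r'
  have h3 := HH_le hT hf hK w' r' r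
  rw [dist_comm r' r] at h3
  have h4 : dist (HH T f (w', r)) (HH T f (w', r')) ≤ K * dist r r' := by
    rw [Real.dist_eq, abs_le]
    constructor <;> linarith
  have h5 : dist (HH T f (w, r)) (HH T f (w', r)) ≤ (C * K : ℝ≥0) * dist w w' := h1
  have h6 : dist w w' ≤ dist ((w, r) : (Fin n → ℝ) × (Fin n → ℝ)) (w', r') := by
    rw [Prod.dist_eq]; exact le_max_left _ _
  have h7 : dist r r' ≤ dist ((w, r) : (Fin n → ℝ) × (Fin n → ℝ)) (w', r') := by
    rw [Prod.dist_eq]; exact le_max_right _ _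
  have h8 := dist_triangle (HH T f (w, r)) (HH T f (w', r)) (HH T f (w', r'))
  have h9 := mul_le_mul_of_nonneg_left h6 (C * K).coe_nonneg
  have h10 := mul_le_mul_of_nonneg_left h7 K.coe_nonneg
  push_cast at *
  linarith

lemma HH_bdd (hT : GoodOp (gam n) T C) {f : (Fin n → ℝ) → ℝ} (hf : Adm f) {B : ℝ}
    (hB : ∀ x, |f x| ≤ B) (p : (Fin n → ℝ) × (Fin n → ℝ)) : |HH T f p| ≤ B :=
  hT.bdd B _ (adm_shift hf p.2) (fun x => hB _) p.1

lemma HH_cont (hT : GoodOp (gam n) T C) {f : (Fin n → ℝ) → ℝ} (hf : Adm f) :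
    Continuous (HH T f) := by
  obtain ⟨K, hK⟩ := hf.1
  exact (HH_lip hT hf hK).continuous

/-- the rotation -/
noncomputable def R (p : (Fin n → ℝ) × (Fin n → ℝ)) : (Fin n → ℝ) × (Fin n → ℝ) :=
  ((1 / Real.sqrt 2) • (p.1 + p.2), (1 / Real.sqrt 2) • (p.1 - p.2))

lemma R_cont : Continuous (R (n := n)) := by
  unfold R
  fun_prop

lemma int_R (hR : RotInv (gam n)) {F : (Fin n → ℝ) × (Fin n → ℝ) → ℝ} (hF : Continuous F) :
    ∫ p, F (R p) ∂((gam n).prod (gam n)) = ∫ p, F p ∂((gam n).prod (gam n)) := by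
  have h : ((gam n).prod (gam n)).map R = (gam n).prod (gam n) := hR
  conv_rhs => rw [← h]
  rw [integral_map R_cont.measurable.aemeasurable hF.aestronglyMeasurable]

/-- the function `g_s` -/
noncomputable def gg (T : ((Fin n → ℝ) → ℝ) → (Fin n → ℝ) → ℝ) (f : (Fin n → ℝ) → ℝ)
    (s d : Fin n → ℝ) : ℝ := HH T f (R (s, d))

lemma gg_lip (hT : GoodOp (gam n) T C) {K : ℝ≥0} {f : (Fin n → ℝ) → ℝ} (hf : Adm f)
    (hK : LipschitzWith K f) (s : Fin n → ℝ) :
    LipschitzWith (C * K + K) (gg T f s) := by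
  apply LipschitzWith.of_dist_le_mul
  intro d d'
  have h1 := (HH_lip hT hf hK).dist_le_mul (R (s, d)) (R (s, d'))
  refine h1.trans ?_
  apply mul_le_mul_of_nonneg_left _ (C * K + K).coe_nonneg
  unfold R
  rw [Prod.dist_eq]
  have hs : |1 / Real.sqrt 2| ≤ 1 := by
    rw [abs_of_nonneg (by positivity), div_le_one (by positivity)]
    exact Real.one_le_sqrt.mpr (by norm_num)
  have e1 : dist ((1 / Real.sqrt 2) • (s + d)) ((1 / Real.sqrt 2) • (s + d')) ≤ dist d d' := by
    rw [dist_smul₀, dist_add_left, Real.norm_eq_abs]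
    exact mul_le_of_le_one_left dist_nonneg hs
  have e2 : dist ((1 / Real.sqrt 2) • (s - d)) ((1 / Real.sqrt 2) • (s - d')) ≤ dist d d' := by
    rw [dist_smul₀, dist_sub_left, Real.norm_eq_abs]
    exact mul_le_of_le_one_left dist_nonneg hs
  exact max_le e1 e2

lemma ngrad_meas (f : (Fin n → ℝ) → ℝ) : Measurable (ngrad f) := by
  unfold ngrad
  apply Measurable.sqrt
  apply Finset.measurable_sum
  intro i _
  exact ((measurable_fderiv_apply_const ℝ f (Pi.single i 1)).min measurable_const).pow_const 2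

/-- the law of the sum -/
lemma sum_ac (n : ℕ) : ((gam n).prod (gam n)).map (fun p => p.1 + p.2) ≪
    (volume : Measure (Fin n → ℝ)) := by
  have hm : Measurable (fun p : (Fin n → ℝ) × (Fin n → ℝ) => p.1 + p.2) :=
    (continuous_fst.add continuous_snd).measurable
  apply Measure.AbsolutelyContinuous.mk
  intro A hA h0
  rw [Measure.map_apply hm hA, Measure.measure_prod_null (hm hA)]
  refine Eventually.of_forall fun x => ?_
  apply gam_ac n
  have : Prod.mk x ⁻¹' ((fun p : (Fin n → ℝ) × (Fin n → ℝ) => p.1 + p.2) ⁻¹' A) =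
      (fun y => x + y) ⁻¹' A := rfl
  rw [this, measure_preimage_add]
  exact h0

end

end E0

open E0 R34.DP

theorem t_EX0 : S_ROT → S_PO → S_MADM → S_MLIM → S_GRB → S_EX0 := by
  intro hROT hPO hMADM hMLIM hGRB n T C hT f hf
  have hR := hROT.1 n
  obtain ⟨K, hK⟩ := hf.1
  obtain ⟨B, hB⟩ := hf.2
  have hB0 : 0 ≤ B := (abs_nonneg _).trans (hB 0)
  set μ := gam n with hμ
  set K' : ℝ≥0 := C * K + K with hK'
  have hHc := HH_cont hT hf
  have hggc : Continuous (fun p : (Fin n → ℝ) × (Fin n → ℝ) => gg T f p.1 p.2) :=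
    hHc.comp R_cont
  -- the gradient
  set DG : (Fin n → ℝ) × (Fin n → ℝ) → ℝ := fun p =>
    Real.sqrt (∑ i, (fderiv ℝ (gg T f p.1) p.2 (Pi.single i 1)) ^ 2) with hDG
  have hDGm : Measurable DG := by
    rw [hDG]
    apply Measurable.sqrt
    apply Finset.measurable_sum
    intro i _
    have hunc : Continuous (Function.uncurry (gg T f)) := hggc
    exact (measurable_fderiv_apply_const_with_param ℝ hunc (Pi.single i 1)).pow_const 2
  have hDGb : ∀ p, |DG p| ≤ Real.sqrt (∑ _i : Fin n, (K' : ℝ) ^ 2) := by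
    intro p
    rw [hDG]
    simp only
    rw [abs_of_nonneg (Real.sqrt_nonneg _)]
    apply Real.sqrt_le_sqrt
    apply Finset.sum_le_sum
    intro i _
    have h1 : ‖fderiv ℝ (gg T f p.1) p.2‖ ≤ K' := norm_fderiv_le_of_lipschitz ℝ (gg_lip hT hf hK p.1)
    have h2 : |fderiv ℝ (gg T f p.1) p.2 (Pi.single i 1)| ≤ K' := by
      have h3 := (fderiv ℝ (gg T f p.1) p.2).le_opNorm (Pi.single i 1)
      have h4 : ‖(Pi.single i 1 : Fin n → ℝ)‖ ≤ 1 := by
        rw [pi_norm_le_iff_of_nonneg zero_le_one]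
        intro j
        by_cases hj : j = i
        · subst hj; simp
        · simp [hj]
      rw [Real.norm_eq_abs] at h3
      calc _ ≤ _ := h3
        _ ≤ ‖fderiv ℝ (gg T f p.1) p.2‖ * 1 := mul_le_mul_of_nonneg_left h4 (norm_nonneg _)
        _ ≤ K' := by rw [mul_one]; exact h1
    exact sq_le_sq' (by linarith [(abs_le.mp h2).1]) (abs_le.mp h2).2
  have hDGi : Integrable DG (μ.prod μ) := bdd_int hDGm hDGb
  -- step 1: the left-hand side
  have hstep1 : ∫ p : (Fin n → ℝ) × (Fin n → ℝ),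
      |T (fun u => f (ContinuousLinearMap.id ℝ (Fin n → ℝ) u + ContinuousLinearMap.id ℝ (Fin n → ℝ) p.2)) p.1 -
        T (fun u => f (ContinuousLinearMap.id ℝ (Fin n → ℝ) p.1 + ContinuousLinearMap.id ℝ (Fin n → ℝ) u)) p.2|
        ∂(μ.prod μ) =
      ∫ p : (Fin n → ℝ) × (Fin n → ℝ), |gg T f p.1 p.2 - gg T f p.1 (-p.2)| ∂(μ.prod μ) := by
    have e1 : (fun p : (Fin n → ℝ) × (Fin n → ℝ) =>
        |T (fun u => f (ContinuousLinearMap.id ℝ (Fin n → ℝ) u + ContinuousLinearMap.id ℝ (Fin n → ℝ) p.2)) p.1 -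
        T (fun u => f (ContinuousLinearMap.id ℝ (Fin n → ℝ) p.1 + ContinuousLinearMap.id ℝ (Fin n → ℝ) u)) p.2|) =
        fun p => |HH T f p - HH T f p.swap| := by
      funext p
      unfold HH
      simp only [ContinuousLinearMap.id_apply, Prod.fst_swap, Prod.snd_swap]
      congr 3
      funext u
      rw [add_comm]
    rw [e1]
    have hFc : Continuous (fun p : (Fin n → ℝ) × (Fin n → ℝ) => |HH T f p - HH T f p.swap|) :=
      (hHc.sub (hHc.comp continuous_swap)).abs
    rw [← int_R hR hFc]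
    apply integral_congr_ae
    refine Eventually.of_forall fun p => ?_
    simp only
    have e2 : (R p).swap = R (p.1, -p.2) := by
      unfold R
      simp [sub_eq_add_neg]
    rw [e2]
    rfl
  -- step 2: Poincare
  have hgi : Integrable (fun p : (Fin n → ℝ) × (Fin n → ℝ) => |gg T f p.1 p.2 - gg T f p.1 (-p.2)|)
      (μ.prod μ) := by
    have hc : Continuous (fun p : (Fin n → ℝ) × (Fin n → ℝ) =>
        |gg T f p.1 p.2 - gg T f p.1 (-p.2)|) := by
      have h2 : Continuous (fun p : (Fin n → ℝ) × (Fin n → ℝ) => gg T f p.1 (-p.2)) :=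
        hggc.comp (continuous_fst.prodMk continuous_snd.neg)
      exact (hggc.sub h2).abs
    refine bdd_int hc.measurable (B := 2 * B) ?_
    intro p
    rw [abs_abs]
    have h1 := HH_bdd hT hf hB (R (p.1, p.2))
    have h2 := HH_bdd hT hf hB (R (p.1, -p.2))
    have h3 := abs_sub (gg T f p.1 p.2) (gg T f p.1 (-p.2))
    unfold gg at *
    linarith
  have hstep2 : ∫ p : (Fin n → ℝ) × (Fin n → ℝ), |gg T f p.1 p.2 - gg T f p.1 (-p.2)| ∂(μ.prod μ) ≤
      Real.pi * ∫ p, DG p ∂(μ.prod μ) := by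
    rw [integral_prod _ hgi, integral_prod _ hDGi, ← integral_const_mul]
    apply integral_mono hgi.integral_prod_left (hDGi.integral_prod_left.const_mul _)
    intro s
    exact hPO n (gg T f s) K' (gg_lip hT hf hK s)
  -- step 3: the gradient and the sup-convolution
  set ε : ℕ → ℝ := fun k => 1 / ((k : ℝ) + 1) with hε
  have hεpos : ∀ k, 0 < ε k := fun k => by rw [hε]; positivity
  have hε0 : Tendsto ε atTop (𝓝 0) := tendsto_one_div_add_atTop_nhds_zero_nat
  have hs2 : (0 : ℝ) < Real.sqrt 2 := by positivity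
  have hs2sq : Real.sqrt 2 * Real.sqrt 2 = 2 := Real.mul_self_sqrt (by norm_num)
  have hMA : ∀ k, Adm (M (ε k) f) := fun k => (hMADM n f hf (ε k) (hεpos k).le).1
  set Q : ℕ → (Fin n → ℝ) × (Fin n → ℝ) → ℝ := fun k p => HH T (M (ε k) f) p - HH T f p with hQ
  have hQc : ∀ k, Continuous (Q k) := fun k => (HH_cont hT (hMA k)).sub hHc
  have hQ0 : ∀ k p, 0 ≤ Q k p := by
    intro k p
    have h1 := hT.lower 0 le_rfl (fun u => M (ε k) f (u + p.2)) (fun u => f (u + p.2))
      (adm_shift (hMA k) p.2) (adm_shift hf p.2) (by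
        intro x
        rw [add_zero]
        exact (hMADM n f hf (ε k) (hεpos k).le).2.1 _) p.1
    rw [add_zero] at h1
    rw [hQ]
    simp only
    unfold HH
    linarith
  have hQi : ∀ k, Integrable (Q k) (μ.prod μ) := by
    intro k
    obtain ⟨B', hB'⟩ := (hMA k).2
    refine bdd_int (hQc k).measurable (B := B' + B) ?_
    intro p
    have h1 := HH_bdd hT (hMA k) hB' p
    have h2 := HH_bdd hT hf hB p
    have h3 := abs_sub (HH T (M (ε k) f) p) (HH T f p)
    rw [hQ]
    simp only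
    linarith
  set q : ℕ → (Fin n → ℝ) × (Fin n → ℝ) → ℝ := fun k p => Q k (R p) / (Real.sqrt 2 * ε k) with hq
  have hqc : ∀ k, Continuous (q k) := fun k => ((hQc k).comp R_cont).div_const _
  have hq0 : ∀ k p, 0 ≤ q k p := fun k p => div_nonneg (hQ0 k _) (mul_pos hs2 (hεpos k)).le
  have hdiff : ∀ᵐ p ∂(μ.prod μ), DifferentiableAt ℝ (gg T f p.1) p.2 := by
    have hunc : Continuous (Function.uncurry (gg T f)) := hggc
    rw [Measure.ae_prod_iff_ae_ae (measurableSet_of_differentiableAt_with_param ℝ hunc)]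
    refine Eventually.of_forall fun s => ?_
    have h1 : ∀ᵐ d ∂(volume : Measure (Fin n → ℝ)), DifferentiableAt ℝ (gg T f s) d :=
      (gg_lip hT hf hK s).ae_differentiableAt
    exact (gam_ac n).ae_le h1
  have hpt : ∀ᵐ p ∂(μ.prod μ), ENNReal.ofReal (DG p) ≤
      liminf (fun k => ENNReal.ofReal (q k p)) atTop := by
    filter_upwards [hdiff] with p hp
    refine hGRB n (gg T f p.1) p.2 hp (fun k => Real.sqrt 2 * ε k) (fun k => q k p)
      (fun k => mul_pos hs2 (hεpos k)) ?_ ?_
    · have := hε0.const_mul (Real.sqrt 2)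
      rwa [mul_zero] at this
    · intro k a ha0 ha
      set a' : Fin n → ℝ := ε k • a with ha'
      have ha'0 : 0 ≤ a' := smul_nonneg (hεpos k).le ha0
      have ha's : ∑ i, a' i ^ 2 ≤ ε k ^ 2 := by
        have : ∑ i, a' i ^ 2 = ε k ^ 2 * ∑ i, a i ^ 2 := by
          rw [ha', Finset.mul_sum]
          apply Finset.sum_congr rfl
          intro i _
          simp [mul_pow]
        rw [this]
        exact mul_le_of_le_one_right (sq_nonneg _) ha
      obtain ⟨w, r, hwr⟩ : ∃ w r, R p = (w, r) := ⟨_, _, rfl⟩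
      have hR1 : R (p.1, p.2 + (Real.sqrt 2 * ε k) • a) = (w + a', r - a') := by
        have h1 : (1 / Real.sqrt 2) • (p.1 + p.2) = w := congrArg Prod.fst hwr
        have h2 : (1 / Real.sqrt 2) • (p.1 - p.2) = r := congrArg Prod.snd hwr
        have h3 : (1 / Real.sqrt 2) • ((Real.sqrt 2 * ε k) • a) = a' := by
          rw [smul_smul, ha']
          congr 1
          field_simp
        unfold R
        simp only
        rw [← add_assoc, smul_add, h1, h3, ← sub_sub, smul_sub, h2, h3]
      have hg1 : gg T f p.1 (p.2 + (Real.sqrt 2 * ε k) • a) = HH T f (w + a', r - a') := by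
        unfold gg
        rw [hR1]
      have hg2 : gg T f p.1 p.2 = HH T f (w, r) := by
        unfold gg
        rw [← hwr]
      rw [hg1, hg2]
      constructor
      · have h1 := hT.lower a' ha'0 (fun u => f (u + (r - a'))) (fun u => f (u + r))
          (adm_shift hf _) (adm_shift hf _) (by
            intro x
            apply le_of_eq
            congr 1
            abel) w
        unfold HH
        linarith
      · have h1 := hT.upper a' ha'0 (fun u => f (u + (r - a'))) (fun u => M (ε k) f (u + r))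
          (adm_shift hf _) (adm_shift (hMA k) _) (by
            intro x c hc0 hc
            have h2 := (hMADM n f hf (ε k) (hεpos k).le).2.2 a' ha'0 ha's (x + r) c hc0 hc
            have h3 : x + c + (r - a') = x + r + c - a' := by abel
            show f (x + c + (r - a')) ≤ _
            rw [h3]
            exact h2) w a' ha'0 le_rfl
        have h4 : Real.sqrt 2 * ε k * q k p = Q k (w, r) := by
          rw [hq]
          simp only
          rw [hwr]
          exact cancel (mul_pos hs2 (hεpos k)).ne'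
        rw [h4, hQ]
        simp only
        unfold HH
        linarith
  -- the integrals of q
  set ν : Measure (Fin n → ℝ) := (μ.prod μ).map (fun p => p.1 + p.2) with hν
  have hsm : Measurable (fun p : (Fin n → ℝ) × (Fin n → ℝ) => p.1 + p.2) :=
    (continuous_fst.add continuous_snd).measurable
  have : IsProbabilityMeasure ν := Measure.isProbabilityMeasure_map hsm.aemeasurable
  have hlim := hMLIM n f hf ν (sum_ac n) ε hεpos hε0
  have hMfc : ∀ k, Continuous (M (ε k) f) := fun k => by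
    obtain ⟨K1, hK1⟩ := (hMA k).1
    exact hK1.continuous
  have hintQ : ∀ k, ∫ p, Q k p ∂(μ.prod μ) =
      ∫ p : (Fin n → ℝ) × (Fin n → ℝ), (M (ε k) f (p.1 + p.2) - f (p.1 + p.2)) ∂(μ.prod μ) := by
    intro k
    obtain ⟨B', hB'⟩ := (hMA k).2
    have hc2 : Continuous (fun p : (Fin n → ℝ) × (Fin n → ℝ) =>
        M (ε k) f (p.1 + p.2) - f (p.1 + p.2)) :=
      ((hMfc k).comp (continuous_fst.add continuous_snd)).sub
        (hK.continuous.comp (continuous_fst.add continuous_snd))
    have hi2 : Integrable (fun p : (Fin n → ℝ) × (Fin n → ℝ) =>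
        M (ε k) f (p.1 + p.2) - f (p.1 + p.2)) (μ.prod μ) := by
      refine bdd_int hc2.measurable (B := B' + B) ?_
      intro p
      have h3 := abs_sub (M (ε k) f (p.1 + p.2)) (f (p.1 + p.2))
      linarith [hB' (p.1 + p.2), hB (p.1 + p.2)]
    rw [integral_prod_symm _ (hQi k), integral_prod_symm _ hi2]
    apply integral_congr_ae
    refine Eventually.of_forall fun r => ?_
    simp only
    have i1 : Integrable (fun w => T (fun u => M (ε k) f (u + r)) w) μ := by
      refine bdd_int ?_ (B := B') (hT.bdd B' _ (adm_shift (hMA k) r) (fun x => hB' _))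
      exact ((HH_cont hT (hMA k)).comp (continuous_id.prodMk continuous_const)).measurable
    have i2 : Integrable (fun w => T (fun u => f (u + r)) w) μ := by
      refine bdd_int ?_ (B := B) (hT.bdd B _ (adm_shift hf r) (fun x => hB _))
      exact (hHc.comp (continuous_id.prodMk continuous_const)).measurable
    have i3 : Integrable (fun w => M (ε k) f (w + r)) μ :=
      bdd_int (((hMfc k).comp (continuous_id.add continuous_const)).measurable) (B := B')
        (fun x => hB' _)
    have i4 : Integrable (fun w => f (w + r)) μ :=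
      bdd_int ((hK.continuous.comp (continuous_id.add continuous_const)).measurable) (B := B)
        (fun x => hB _)
    show ∫ w, (T (fun u => M (ε k) f (u + r)) w - T (fun u => f (u + r)) w) ∂μ =
      ∫ w, (M (ε k) f (w + r) - f (w + r)) ∂μ
    rw [integral_sub i1 i2, integral_sub i3 i4, hT.int _ (adm_shift (hMA k) r),
      hT.int _ (adm_shift hf r)]
  have hintq : ∀ k, ∫ p, q k p ∂(μ.prod μ) =
      1 / Real.sqrt 2 * ∫ x, (M (ε k) f x - f x) / ε k ∂ν := by
    intro k
    have e1 : ∫ p, q k p ∂(μ.prod μ) = (∫ p, Q k p ∂(μ.prod μ)) / (Real.sqrt 2 * ε k) := by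
      rw [hq]
      simp only
      rw [integral_div, int_R hR (hQc k)]
    have e2 : ∫ x, (M (ε k) f x - f x) / ε k ∂ν = (∫ p, Q k p ∂(μ.prod μ)) / ε k := by
      rw [integral_div, hintQ k, hν, integral_map hsm.aemeasurable]
      exact ((hMfc k).sub hK.continuous).aestronglyMeasurable
    rw [e1, e2]
    have := (hεpos k).ne'
    field_simp
  have hJ : Tendsto (fun k => ∫ p, q k p ∂(μ.prod μ)) atTop
      (𝓝 (1 / Real.sqrt 2 * ∫ x, ngrad f x ∂ν)) := by
    simp_rw [hintq]
    exact hlim.const_mul _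
  have hJ0 : 0 ≤ 1 / Real.sqrt 2 * ∫ x, ngrad f x ∂ν := by
    apply mul_nonneg (by positivity)
    exact integral_nonneg fun x => Real.sqrt_nonneg _
  have hqi : ∀ k, Integrable (q k) (μ.prod μ) := by
    intro k
    obtain ⟨B', hB'⟩ := (hMA k).2
    refine bdd_int (hqc k).measurable (B := (B' + B) / (Real.sqrt 2 * ε k)) ?_
    intro p
    have h1 := HH_bdd hT (hMA k) hB' (R p)
    have h2 := HH_bdd hT hf hB (R p)
    have h3 := abs_sub (HH T (M (ε k) f) (R p)) (HH T f (R p))
    rw [hq]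
    simp only
    rw [abs_div, abs_of_pos (mul_pos hs2 (hεpos k))]
    apply div_le_div_of_nonneg_right _ (mul_pos hs2 (hεpos k)).le
    rw [hQ]
    simp only
    linarith
  have hfatou : ∫⁻ p, ENNReal.ofReal (DG p) ∂(μ.prod μ) ≤
      ENNReal.ofReal (1 / Real.sqrt 2 * ∫ x, ngrad f x ∂ν) := by
    calc ∫⁻ p, ENNReal.ofReal (DG p) ∂(μ.prod μ)
        ≤ ∫⁻ p, liminf (fun k => ENNReal.ofReal (q k p)) atTop ∂(μ.prod μ) :=
          lintegral_mono_ae hpt
      _ ≤ liminf (fun k => ∫⁻ p, ENNReal.ofReal (q k p) ∂(μ.prod μ)) atTop :=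
          lintegral_liminf_le fun k => (hqc k).measurable.ennreal_ofReal
      _ = liminf (fun k => ENNReal.ofReal (∫ p, q k p ∂(μ.prod μ))) atTop := by
          congr 1
          funext k
          rw [ofReal_integral_eq_lintegral_ofReal (hqi k) (Eventually.of_forall (hq0 k))]
      _ = ENNReal.ofReal (1 / Real.sqrt 2 * ∫ x, ngrad f x ∂ν) :=
          ((ENNReal.continuous_ofReal.tendsto _).comp hJ).liminf_eq
  have hstep3 : ∫ p, DG p ∂(μ.prod μ) ≤ 1 / Real.sqrt 2 * ∫ x, ngrad f x ∂ν := by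
    rw [integral_eq_lintegral_of_nonneg_ae (Eventually.of_forall fun p => Real.sqrt_nonneg _)
      hDGm.aestronglyMeasurable]
    exact ENNReal.toReal_le_of_le_ofReal hJ0 hfatou
  have hlast : ∫ x, ngrad f x ∂ν = ∫ p : (Fin n → ℝ) × (Fin n → ℝ),
      ngrad f (p.1 + p.2) ∂(μ.prod μ) := by
    rw [hν, integral_map hsm.aemeasurable (ngrad_meas f).aestronglyMeasurable]
  rw [hstep1]
  refine hstep2.trans ?_
  calc Real.pi * ∫ p, DG p ∂(μ.prod μ)
      ≤ Real.pi * (1 / Real.sqrt 2 * ∫ x, ngrad f x ∂ν) :=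
        mul_le_mul_of_nonneg_left hstep3 Real.pi_pos.le
    _ = Real.pi / Real.sqrt 2 * ∫ p : (Fin n → ℝ) × (Fin n → ℝ),
        ngrad f (ContinuousLinearMap.id ℝ (Fin n → ℝ) p.1 +
          ContinuousLinearMap.id ℝ (Fin n → ℝ) p.2) ∂(μ.prod μ) := by
        rw [hlast]
        simp only [ContinuousLinearMap.id_apply]
        ring

end Pool.Agent.H152R2.DP
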