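import Pool.Agent.R34.DP.Stm

/-! DP-MLIM (MP_04ae38_an, project DP of helper34): limit of `(M_ε f - f) / ε`. -/

set_option autoImplicit false

open MeasureTheory ProbabilityTheory Set Filter
open scoped NNReal ENNReal Topology

namespace Pool.Agent.H152R2.DP

open R34.DP

variable {n : ℕ}

lemma norm_le_of_sq {b : Fin n → ℝ} {ε : ℝ} (hε : 0 ≤ ε) (hb : ∑ i, b i ^ 2 ≤ ε ^ 2) : ‖b‖ ≤ ε := by
  rw [pi_norm_le_iff_of_nonneg hε]
  intro i
  rw [Real.norm_eq_abs]
  apply abs_le_of_sq_le_sq' _ hε |> abs_le.mpr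
  exact (Finset.single_le_sum (f := fun i => b i ^ 2) (fun j _ => sq_nonneg _)
    (Finset.mem_univ i)).trans hb

lemma le_M {f : (Fin n → ℝ) → ℝ} {B : ℝ} (hB : ∀ x, |f x| ≤ B) (x : Fin n → ℝ) {ε : ℝ}
    {b : Fin n → ℝ} (hb0 : 0 ≤ b) (hb : ∑ i, b i ^ 2 ≤ ε ^ 2) : f (x - b) ≤ M ε f x := by
  unfold M
  apply le_csSup
  · refine ⟨B, ?_⟩
    rintro r ⟨c, _, _, rfl⟩
    exact (le_abs_self _).trans (hB _)
  · exact ⟨b, hb0, hb, rfl⟩

lemma M_le {f : (Fin n → ℝ) → ℝ} (x : Fin n → ℝ) {ε c : ℝ}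
    (h : ∀ b : Fin n → ℝ, 0 ≤ b → ∑ i, b i ^ 2 ≤ ε ^ 2 → f (x - b) ≤ c) : M ε f x ≤ c := by
  unfold M
  apply csSup_le
  · exact ⟨f (x - 0), 0, le_rfl, by simp; positivity, rfl⟩
  · rintro r ⟨b, h1, h2, rfl⟩
    exact h b h1 h2

lemma fd_sum (L : (Fin n → ℝ) →L[ℝ] ℝ) (b : Fin n → ℝ) :
    L b = ∑ i, b i * L (Pi.single i 1) := by
  have h1 : b = ∑ i, b i • (Pi.single i (1 : ℝ) : Fin n → ℝ) := by
    funext j
    rw [Finset.sum_apply]
    simp [Pi.single_apply]
  conv_lhs => rw [h1]
  rw [map_sum]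
  apply Finset.sum_congr rfl
  intro i _
  rw [map_smul, smul_eq_mul]

lemma point {f : (Fin n → ℝ) → ℝ} {B : ℝ} (hB : ∀ x, |f x| ≤ B) {x : Fin n → ℝ}
    (hd : DifferentiableAt ℝ f x) (ε : ℕ → ℝ) (hε : ∀ k, 0 < ε k) (hε0 : Tendsto ε atTop (𝓝 0)) :
    Tendsto (fun k => (M (ε k) f x - f x) / ε k) atTop (𝓝 (ngrad f x)) := by
  set L := fderiv ℝ f x with hL
  set N := ngrad f x with hN
  have hN0 : 0 ≤ N := Real.sqrt_nonneg _
  have hNsq : N ^ 2 = ∑ i, (min (L (Pi.single i 1)) 0) ^ 2 := by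
    rw [hN]
    unfold ngrad
    rw [Real.sq_sqrt (Finset.sum_nonneg fun i _ => sq_nonneg _)]
  have ho := hasFDerivAt_iff_isLittleO_nhds_zero.mp hd.hasFDerivAt
  rw [Metric.tendsto_atTop]
  intro η hη
  have h1 := (Asymptotics.isLittleO_iff.mp ho) (half_pos hη)
  rw [Metric.eventually_nhds_iff] at h1
  obtain ⟨δ, hδ, h1⟩ := h1
  obtain ⟨k0, hk0⟩ := (Metric.tendsto_atTop.mp hε0) δ hδ
  refine ⟨k0, ?_⟩
  intro k hk
  have hk1 := hk0 k hk
  rw [Real.dist_eq, sub_zero, abs_of_pos (hε k)] at hk1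
  set e := ε k with he
  have he0 : 0 < e := hε k
  have hloc : ∀ b : Fin n → ℝ, ∑ i, b i ^ 2 ≤ e ^ 2 → |f (x - b) - f x + L b| ≤ η / 2 * e := by
    intro b hb
    have hbn := norm_le_of_sq he0.le hb
    have h2 : dist (-b) 0 < δ := by
      rw [dist_zero_right, norm_neg]
      exact lt_of_le_of_lt hbn hk1
    have h3 := h1 h2
    rw [norm_neg, Real.norm_eq_abs, map_neg, sub_neg_eq_add, ← sub_eq_add_neg] at h3
    exact h3.trans (mul_le_mul_of_nonneg_left hbn (by positivity))
  have hup : M e f x ≤ f x + e * N + η / 2 * e := by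
    apply M_le
    intro b hb0 hb
    have h2 := (abs_le.mp (hloc b hb)).2
    have h3 : -(L b) ≤ e * N := by
      rw [fd_sum L b, ← Finset.sum_neg_distrib]
      calc ∑ i, -(b i * L (Pi.single i 1)) ≤ ∑ i, b i * (-(min (L (Pi.single i 1)) 0)) := by
            apply Finset.sum_le_sum
            intro i _
            have h4 : min (L (Pi.single i 1)) 0 ≤ L (Pi.single i 1) := min_le_left _ _
            have hbi : 0 ≤ b i := hb0 i
            have h5 := mul_le_mul_of_nonneg_left h4 hbi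
            linarith
        _ ≤ Real.sqrt (∑ i, b i ^ 2) * Real.sqrt (∑ i, (-(min (L (Pi.single i 1)) 0)) ^ 2) :=
            Real.sum_mul_le_sqrt_mul_sqrt _ _ _
        _ ≤ e * N := by
            apply mul_le_mul _ _ (Real.sqrt_nonneg _) he0.le
            · rw [← Real.sqrt_sq he0.le]
              exact Real.sqrt_le_sqrt hb
            · apply le_of_eq
              rw [hN]
              unfold ngrad
              congr 1
              apply Finset.sum_congr rfl
              intro i _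
              rw [neg_sq]
    linarith
  have hlow : f x + e * N - η / 2 * e ≤ M e f x := by
    rcases hN0.eq_or_lt with h0 | h0
    · have h2 := le_M hB x (ε := e) (b := 0) le_rfl (by simp; positivity)
      rw [sub_zero] at h2
      rw [← h0]
      have : 0 ≤ η / 2 * e := by positivity
      linarith
    · set b : Fin n → ℝ := fun i => e / N * (-(min (L (Pi.single i 1)) 0)) with hb
      have hb0 : 0 ≤ b := by
        intro i
        rw [hb]
        simp only [Pi.zero_apply]
        have : min (L (Pi.single i 1)) 0 ≤ 0 := min_le_right _ _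
        have h3 : 0 ≤ e / N := by positivity
        exact mul_nonneg h3 (by linarith)
      have hbs : ∑ i, b i ^ 2 = e ^ 2 := by
        rw [hb]
        simp only [mul_pow, neg_sq]
        rw [← Finset.mul_sum, ← hNsq]
        field_simp
      have h2 := le_M hB x hb0 hbs.le
      have h3 := (abs_le.mp (hloc b hbs.le)).1
      have h4 : L b = -(e * N) := by
        rw [fd_sum L b, hb]
        have h5 : ∀ i, e / N * (-(min (L (Pi.single i 1)) 0)) * L (Pi.single i 1) =
            -(e / N) * (min (L (Pi.single i 1)) 0) ^ 2 := by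
          intro i
          rcases le_total (L (Pi.single i 1)) 0 with h | h
          · rw [min_eq_left h]
            ring
          · rw [min_eq_right h]
            ring
        rw [Finset.sum_congr rfl (fun i _ => h5 i), ← Finset.mul_sum, ← hNsq]
        field_simp
      rw [h4] at h3
      linarith
  rw [Real.dist_eq, abs_lt]
  have h6 : (M e f x - f x) / e - N = (M e f x - f x - e * N) / e := by
    field_simp
  rw [h6]
  constructor
  · rw [lt_div_iff₀ he0]
    nlinarith
  · rw [div_lt_iff₀ he0]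
    nlinarith

theorem t_MLIM : S_MADM → S_MLIM := by
  intro hM n f hf ν _ hν ε hε hε0
  obtain ⟨⟨K, hK⟩, B, hB⟩ := hf
  have hf' : Adm f := ⟨⟨K, hK⟩, B, hB⟩
  apply tendsto_integral_of_dominated_convergence (fun _ => (K : ℝ))
  · intro k
    obtain ⟨⟨⟨K', hK'⟩, _⟩, _, _⟩ := hM n f hf' (ε k) (hε k).le
    exact ((hK'.continuous.sub hK.continuous).div_const _).aestronglyMeasurable
  · exact integrable_const _
  · intro k
    refine Eventually.of_forall fun x => ?_
    obtain ⟨_, h1, _⟩ := hM n f hf' (ε k) (hε k).le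
    rw [Real.norm_eq_abs, abs_of_nonneg (div_nonneg (by linarith [h1 x]) (hε k).le),
      div_le_iff₀ (hε k)]
    have h2 : M (ε k) f x ≤ f x + K * ε k := by
      apply M_le
      intro b _ hb
      have h3 := hK.dist_le_mul (x - b) x
      rw [Real.dist_eq, dist_eq_norm, sub_sub_cancel_left, norm_neg] at h3
      have h4 := norm_le_of_sq (hε k).le hb
      have h5 := mul_le_mul_of_nonneg_left h4 K.coe_nonneg
      have h6 := le_abs_self (f (x - b) - f x)
      linarith
    linarith
  · have h1 : ∀ᵐ x ∂(volume : Measure (Fin n → ℝ)), DifferentiableAt ℝ f x := hK.ae_differentiableAt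
    filter_upwards [hν.ae_le h1] with x hx
    exact point hB hx ε hε hε0

end Pool.Agent.H152R2.DP
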